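import Pool.Agent.Helper65.OH.Goals
import Pool.Agent.Helper28.Ram.Par3

/-!
# Packet OH PAR: the parameters of the simulation of machines with one head
-/

namespace Pool.Agent.Helper64.OH

open Pool.Agent.Helper65.LinSpace Pool.Agent.Helper78.Mpc Pool.Agent.Helper28.Ram
open Pool.Agent.Helper65.OH Finset Filter

theorem PAR (hOKS : OKS_stmt) : PAR_stmt := by
  intro D C hD
  obtain ⟨k, hk⟩ := exists_nat_gt ((96 * |C| * D ^ 2 + 4 * |C| + 4) ^ 2)
  filter_upwards [ev_ll_ge k, ev_ll_cube ((20 * D + 20) * (20 * D + 20))] with n hn hcube r s hs h1 h2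
  have hC : C ≤ |C| := le_abs_self C
  have hC0 := abs_nonneg C
  have hD1 : (1 : ℝ) ≤ D := by exact_mod_cast hD
  have hl : ((ll n : ℕ) : ℝ) = (Nat.log 2 n : ℝ) + 1 := by
    unfold ll
    push_cast
    ring
  rw [← hl] at h1 h2
  have hlk : (96 * |C| * D ^ 2 + 4 * |C| + 4) ^ 2 < (ll n : ℝ) :=
    lt_of_lt_of_le hk (by exact_mod_cast hn)
  have hN : ((n : ℝ) + 1) ≤ (gR n : ℝ) * gR n * ll n := by exact_mod_cast lt_gR_sq n
  have hg1 : (1 : ℝ) ≤ (gR n : ℝ) := by exact_mod_cast Nat.succ_pos _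
  -- `g` is much larger than `ll n`
  have hgl : (20 * D + 20) * ll n ≤ gR n := by
    have h3 : (20 * D + 20) * (20 * D + 20) * (ll n * ll n * ll n) ≤ gR n * gR n * ll n :=
      hcube.trans ((Nat.le_succ n).trans (lt_gR_sq n))
    have h4 : ((20 * D + 20) * ll n) * ((20 * D + 20) * ll n) ≤ gR n * gR n := by
      have h5 : ((20 * D + 20) * ll n) * ((20 * D + 20) * ll n) * ll n ≤
          gR n * gR n * ll n := by
        calc _ = (20 * D + 20) * (20 * D + 20) * (ll n * ll n * ll n) := by ring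
          _ ≤ _ := h3
      exact Nat.le_of_mul_le_mul_right h5 (ll_pos n)
    exact Nat.mul_self_le_mul_self_iff.1 h4
  set g : ℝ := (gR n : ℝ) with hg
  set u : ℝ := Real.sqrt (ll n) with hu
  have hl0 : (0 : ℝ) ≤ ll n := Nat.cast_nonneg _
  have hl1 : (1 : ℝ) ≤ ll n := by exact_mod_cast ll_pos n
  have hu0 : 0 ≤ u := Real.sqrt_nonneg _
  have huu : u * u = ll n := Real.mul_self_sqrt hl0
  have hub : 96 * |C| * D ^ 2 + 4 * |C| + 4 < u := by
    rw [hu]
    exact Real.lt_sqrt_of_sq_lt hlk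
  set v : ℝ := Real.sqrt ((n : ℝ) + 1) with hv
  have hn0 : (0 : ℝ) < (n : ℝ) + 1 := by positivity
  have hv0 : 0 ≤ v := Real.sqrt_nonneg _
  have hvv : v * v = (n : ℝ) + 1 := Real.mul_self_sqrt hn0.le
  have e1 : ((n : ℝ) + 1) ^ ((1 : ℝ) / 2) = v := by rw [hv, Real.sqrt_eq_rpow]
  have hvg : v ≤ g * u := by
    have h3 : v * v ≤ (g * u) * (g * u) := by
      rw [hvv]
      calc (n : ℝ) + 1 ≤ g * g * ll n := hN
        _ = (g * u) * (g * u) := by rw [← huu]; ring
    exact abs_le_of_sq_le_sq' (by nlinarith) (by positivity) |>.2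
  have hu1 : 0 < u := by nlinarith [sq_nonneg (D : ℝ)]
  have hu4 : 4 < u := by
    have : 0 ≤ 96 * |C| * D ^ 2 := by positivity
    linarith
  rw [e1] at h2
  have hs0 : (1 : ℝ) ≤ s := by exact_mod_cast hs
  have hspos : (0 : ℝ) < s := by linarith
  -- the length of the words
  have h4 : (s : ℝ) * u ≤ |C| * g := by
    have h5 : (s : ℝ) * (u * u) ≤ C * v := by
      rw [huu]
      rwa [le_div_iff₀ (by linarith)] at h2
    have h6 : C * v ≤ |C| * (g * u) := mul_le_mul hC hvg hv0 hC0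
    have h7 : (s : ℝ) * u * u ≤ |C| * g * u := by nlinarith
    exact le_of_mul_le_mul_right h7 hu1
  have h8 : 4 * (s : ℝ) ≤ g := by
    have h9 : (s : ℝ) * (4 * |C| + 1) ≤ (s : ℝ) * u := by
      have : 0 ≤ 96 * |C| * D ^ 2 := by positivity
      exact mul_le_mul_of_nonneg_left (by linarith) (by linarith)
    have h10 : 0 < |C| := by
      rcases hC0.lt_or_eq with h | h
      · exact h
      · rw [← h] at h4
        nlinarith
    nlinarith
  have h11 : 4 * s ≤ gR n := by
    rw [hg] at h8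
    exact_mod_cast h8
  have hσ : s + kap n * D + 1 ≤ gR n := by
    unfold kap
    have hp := ll_pos n
    have e2 : (4 * ll n + 6) * D + 1 ≤ 10 * (ll n * D) + ll n := by nlinarith
    have e3 : (20 * D + 20) * ll n = 20 * (ll n * D) + 20 * ll n := by ring
    omega
  refine ⟨hσ, ?_, ?_⟩
  · -- the running time is polynomial
    set E : ℝ := 1 / (D : ℝ) with hE
    have hE0 : 0 < E := by positivity
    have hE1 : E ≤ 1 := by
      rw [hE, div_le_one (by linarith)]
      exact hD1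
    have a1 : (1 : ℝ) ≤ (s : ℝ) ^ (1 + E) := Real.one_le_rpow hs0 (by linarith)
    have a2 : (r : ℝ) ≤ (r : ℝ) * (s : ℝ) ^ (1 + E) :=
      le_mul_of_one_le_right (Nat.cast_nonneg _) a1
    have a3 : ((n : ℝ) + 1) ^ ((3 : ℝ) / 2 + E) ≤ ((n : ℝ) + 1) ^ (3 : ℝ) :=
      Real.rpow_le_rpow_of_exponent_le (by linarith [Nat.cast_nonneg (α := ℝ) n]) (by linarith)
    have a4 : ((n : ℝ) + 1) ^ (3 : ℝ) = ((n : ℝ) + 1) ^ 3 := by
      rw [show (3 : ℝ) = ((3 : ℕ) : ℝ) by norm_num, Real.rpow_natCast]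
    have a5 : |C| ≤ (ll n : ℝ) ^ 4 := by
      have b1 : |C| ≤ u := by
        have : 0 ≤ 96 * |C| * D ^ 2 := by positivity
        linarith
      have b2 : u ≤ ll n := by rw [← huu]; nlinarith
      have b3 : (ll n : ℝ) ≤ (ll n : ℝ) ^ 4 := le_self_pow₀ hl1 (by norm_num)
      linarith
    have a6 : (r : ℝ) ≤ ((n : ℝ) + 1) ^ 3 := by
      have b1 : C * ((n : ℝ) + 1) ^ ((3 : ℝ) / 2 + E) / (ll n : ℝ) ^ 4 ≤ ((n : ℝ) + 1) ^ 3 := by
        rw [div_le_iff₀ (by positivity)]
        calc C * ((n : ℝ) + 1) ^ ((3 : ℝ) / 2 + E)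
            ≤ (ll n : ℝ) ^ 4 * ((n : ℝ) + 1) ^ (3 : ℝ) :=
              mul_le_mul (hC.trans a5) a3 (by positivity) (by positivity)
          _ = _ := by rw [a4]; ring
      exact a2.trans (h1.trans b1)
    have a7 : ((r : ℝ)) ≤ (((n + 1) ^ 3 : ℕ) : ℝ) := by
      push_cast
      exact a6
    have a8 : r ≤ (n + 1) ^ 3 := by exact_mod_cast a7
    refine a8.trans ?_
    calc (n + 1) ^ 3 ≤ (n + 2) ^ 3 := Nat.pow_le_pow_left (by omega) 3
      _ ≤ (n + 2) ^ 4 := Nat.pow_le_pow_right (by omega) (by norm_num)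
  · -- the main inequality
    have hE : 1 / (D : ℝ) = ((D : ℝ))⁻¹ := one_div _
    rw [hE] at h1
    set E : ℝ := ((D : ℝ))⁻¹ with hEd
    have hE0 : 0 < E := by positivity
    have hE1 : E ≤ 1 := inv_le_one_of_one_le₀ hD1
    have hsS : sS n s = s := by
      unfold sS
      omega
    obtain ⟨d1, -, d3⟩ := hOKS.2 n s D hD
    rw [hsS] at d1 d3
    set d := sd' n s D with hd
    set σ := s + kap n * D + 1 with hσd
    set b := gR n / σ with hb
    have hb1 : 1 ≤ b := by
      rw [hb, Nat.le_div_iff_mul_le (by omega)]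
      omega
    have hgb : gR n ≤ 2 * b * σ := by
      have h21 : gR n < (b + 1) * σ := by
        have := Nat.lt_div_mul_add (a := gR n) (b := σ) (by omega)
        rw [add_mul, one_mul]
        exact this
      have h22 : (b + 1) * σ ≤ (2 * b) * σ := Nat.mul_le_mul_right _ (by omega)
      omega
    have hσM : σ ≤ s * (12 * (D * ll n)) := by
      have hp := ll_pos n
      have e2 : kap n * D + 2 ≤ 12 * (D * ll n) := by
        unfold kap
        nlinarith [Nat.mul_le_mul hD hp]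
      have e3 : kap n * D ≤ s * (kap n * D) := Nat.le_mul_of_pos_left _ hs
      calc σ ≤ s * (kap n * D + 2) := by
            rw [hσd, mul_add]
            omega
        _ ≤ _ := Nat.mul_le_mul_left _ e2
    -- real versions
    have hgbr : g ≤ 2 * b * (s * (12 * (D * (u * u)))) := by
      have : gR n ≤ 2 * b * (s * (12 * (D * ll n))) :=
        hgb.trans (Nat.mul_le_mul_left _ hσM)
      rw [huu, hg]
      exact_mod_cast this
    have hdr : g * g < 2 * s * (2 * (d : ℝ)) ^ D := by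
      have e2 : gR n * gR n < 2 * s * (2 * d) ^ D := by
        refine lt_of_lt_of_le d3 (Nat.mul_le_mul (by omega) (Nat.pow_le_pow_left (by omega) D))
      rw [hg]
      exact_mod_cast e2
    have hd0 : (1 : ℝ) ≤ d := by exact_mod_cast d1
    have hX : (g * g) ^ E ≤ 4 * d * (s : ℝ) ^ E := by
      have e2 : (g * g) ^ E ≤ (2 * s * (2 * (d : ℝ)) ^ D) ^ E :=
        Real.rpow_le_rpow (by positivity) hdr.le hE0.le
      have e3 : (2 * s * (2 * (d : ℝ)) ^ D) ^ E = (2 : ℝ) ^ E * (s : ℝ) ^ E * (2 * d) := by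
        rw [Real.mul_rpow (by positivity) (by positivity), Real.mul_rpow (by norm_num) hspos.le,
          hEd, Real.pow_rpow_inv_natCast (by positivity) (by omega)]
      have e4 : (2 : ℝ) ^ E ≤ 2 := by
        calc (2 : ℝ) ^ E ≤ (2 : ℝ) ^ (1 : ℝ) :=
              Real.rpow_le_rpow_of_exponent_le (by norm_num) hE1
          _ = 2 := Real.rpow_one 2
      rw [e3] at e2
      have hsE : 0 ≤ (s : ℝ) ^ E := by positivity
      calc (g * g) ^ E ≤ (2 : ℝ) ^ E * (s : ℝ) ^ E * (2 * d) := e2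
        _ ≤ 2 * (s : ℝ) ^ E * (2 * d) := by gcongr
        _ = _ := by ring
    have hnE : ((n : ℝ) + 1) ^ ((3 : ℝ) / 2 + E) ≤ v * v * v * ((g * g) ^ E * (u * u)) := by
      have e2 : ((n : ℝ) + 1) ^ ((3 : ℝ) / 2) = v * v * v := by
        have : (3 : ℝ) / 2 = 1 + 1 / 2 := by norm_num
        rw [this, Real.rpow_add hn0, Real.rpow_one, e1, hvv]
      have e3 : ((n : ℝ) + 1) ^ E ≤ (g * g) ^ E * (u * u) := by
        calc ((n : ℝ) + 1) ^ E ≤ (g * g * ll n) ^ E := Real.rpow_le_rpow hn0.le hN hE0.le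
          _ = (g * g) ^ E * (ll n : ℝ) ^ E := Real.mul_rpow (by positivity) hl0
          _ ≤ (g * g) ^ E * (u * u) := by
            rw [huu]
            have : (ll n : ℝ) ^ E ≤ (ll n : ℝ) ^ (1 : ℝ) :=
              Real.rpow_le_rpow_of_exponent_le hl1 hE1
            rw [Real.rpow_one] at this
            gcongr
      rw [Real.rpow_add hn0, e2]
      gcongr
    have hsE : 0 < (s : ℝ) ^ E := by positivity
    -- the main chain
    have m1 : (r : ℝ) * (s * (s : ℝ) ^ E) * (u * u) ^ 4 ≤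
        |C| * ((g * u) * (g * u) * (g * u) * ((g * g) ^ E * (u * u))) := by
      have b1 : (r : ℝ) * (s * (s : ℝ) ^ E) * (u * u) ^ 4 ≤
          C * ((n : ℝ) + 1) ^ ((3 : ℝ) / 2 + E) := by
        rw [le_div_iff₀ (by positivity), Real.rpow_add hspos, Real.rpow_one] at h1
        rw [huu]
        exact h1
      have b2 : v * v * v ≤ (g * u) * (g * u) * (g * u) :=
        mul_le_mul (mul_le_mul hvg hvg hv0 (by positivity)) hvg hv0 (by positivity)
      calc _ ≤ C * ((n : ℝ) + 1) ^ ((3 : ℝ) / 2 + E) := b1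
        _ ≤ |C| * (v * v * v * ((g * g) ^ E * (u * u))) :=
            mul_le_mul hC hnE (by positivity) hC0
        _ ≤ _ := by gcongr
    have m2 : (r : ℝ) * (s * (s : ℝ) ^ E) * (u * u * u) ≤ |C| * (g * g * g * (g * g) ^ E) := by
      have b1 : ((r : ℝ) * (s * (s : ℝ) ^ E) * (u * u * u)) * (u * u * u * u * u) ≤
          (|C| * (g * g * g * (g * g) ^ E)) * (u * u * u * u * u) := by
        calc _ = (r : ℝ) * (s * (s : ℝ) ^ E) * (u * u) ^ 4 := by ring
          _ ≤ _ := m1
          _ = _ := by ring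
      exact le_of_mul_le_mul_right b1 (by positivity)
    have m3 : (r : ℝ) * s * (u * u * u) ≤ 4 * |C| * (g * g * g) * d := by
      have b1 : ((r : ℝ) * s * (u * u * u)) * (s : ℝ) ^ E ≤
          (4 * |C| * (g * g * g) * d) * (s : ℝ) ^ E := by
        calc _ = (r : ℝ) * (s * (s : ℝ) ^ E) * (u * u * u) := by ring
          _ ≤ |C| * (g * g * g * (g * g) ^ E) := m2
          _ ≤ |C| * (g * g * g * (4 * d * (s : ℝ) ^ E)) := by gcongr
          _ = _ := by ring
      exact le_of_mul_le_mul_right b1 hsE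
    have m4 : (r : ℝ) * u ≤ 96 * |C| * D * (d * (g * (g * b))) := by
      have b1 : ((r : ℝ) * u) * (s * (u * u)) ≤
          (96 * |C| * D * (d * (g * (g * b)))) * (s * (u * u)) := by
        calc _ = (r : ℝ) * s * (u * u * u) := by ring
          _ ≤ 4 * |C| * (g * g * g) * d := m3
          _ ≤ 4 * |C| * (g * g * (2 * b * (s * (12 * (D * (u * u)))))) * d := by gcongr
          _ = _ := by ring
      exact le_of_mul_le_mul_right b1 (by positivity)
    have hQ : (0 : ℝ) < d * (g * (g * b)) := by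
      have : (1 : ℝ) ≤ b := by exact_mod_cast hb1
      positivity
    have m5 : (D : ℝ) * r < d * (g * (g * b)) := by
      set Q : ℝ := d * (g * (g * b)) with hQd
      have b1 : (D : ℝ) * r * u ≤ 96 * |C| * D ^ 2 * Q := by
        calc (D : ℝ) * r * u = D * (r * u) := by ring
          _ ≤ D * (96 * |C| * D * Q) := by gcongr
          _ = _ := by ring
      have b2 : 0 ≤ 96 * |C| * D ^ 2 := by positivity
      have b3 : (D : ℝ) * r * (96 * |C| * D ^ 2 + 1) ≤ (D : ℝ) * r * u := by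
        have : 0 ≤ (D : ℝ) * r := by positivity
        exact mul_le_mul_of_nonneg_left (by linarith) this
      by_contra hcon
      push Not at hcon
      have b4 : Q * (96 * |C| * D ^ 2 + 1) ≤ (D : ℝ) * r * (96 * |C| * D ^ 2 + 1) :=
        mul_le_mul_of_nonneg_right hcon (by linarith)
      nlinarith
    rw [hg] at m5
    exact_mod_cast m5

end Pool.Agent.Helper64.OH
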